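import Pool.Agent.Helper94.FBPseudo

set_option autoImplicit false
open Filter Topology

namespace Pool.Agent.Results.MP_91dc65_gt.PiWeightAtLeastB

/-- The bounding number `𝔟`: the least cardinality of a family of functions `ℕ → ℕ` such that no
single function eventually dominates every member. -/
noncomputable def bounding : Cardinal.{0} :=
  sInf {κ : Cardinal.{0} | ∃ F : Set (ℕ → ℕ),
    (∀ g : ℕ → ℕ, ∃ f ∈ F, ∃ᶠ n in atTop, g n < f n) ∧ Cardinal.mk F = κ}

/-- The pseudo-intersection number `𝔭`: the least cardinality of a family of subsets of `ℕ` all of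
whose finite subfamilies have infinite intersection, but which has no infinite
pseudo-intersection. -/
noncomputable def pseudoint : Cardinal.{0} :=
  sInf {κ : Cardinal.{0} | ∃ F : Set (Set ℕ),
    (∀ G : Finset (Set ℕ), (↑G : Set (Set ℕ)) ⊆ F → (⋂ A ∈ G, A).Infinite) ∧
    (¬ ∃ P : Set ℕ, P.Infinite ∧ ∀ A ∈ F, (P \ A).Finite) ∧ Cardinal.mk F = κ}

/-- The π-weight: the least cardinality of a family of nonempty open sets such that every nonempty
open set contains a member. -/
noncomputable def piWeight (X : Type) [TopologicalSpace X] : Cardinal.{0} :=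
  sInf {κ : Cardinal.{0} | ∃ P : Set (Set X),
    (∀ p ∈ P, IsOpen p ∧ p.Nonempty) ∧
    (∀ U : Set X, IsOpen U → U.Nonempty → ∃ p ∈ P, p ⊆ U) ∧ Cardinal.mk P = κ}

/-- The π-character at `x`: the least cardinality of a family of nonempty open sets such that every
open set containing `x` contains a member. -/
noncomputable def piCharacter {X : Type} [TopologicalSpace X] (x : X) : Cardinal.{0} :=
  sInf {κ : Cardinal.{0} | ∃ P : Set (Set X),
    (∀ p ∈ P, IsOpen p ∧ p.Nonempty) ∧
    (∀ U : Set X, IsOpen U → x ∈ U → ∃ p ∈ P, p ⊆ U) ∧ Cardinal.mk P = κ}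

/-- In ZFC there is a countable Hausdorff Fréchet–Urysohn space with a base of clopen sets all of
whose points have π-character at least `𝔟`; so its π-weight is at least `𝔟` (and at most `𝔠`), and it
equals `𝔟` if `𝔟 = 𝔠` or if `𝔟 ≤ 𝔭` (that is, `𝔟 = 𝔭`). -/
theorem result :
    ∃ (X : Type) (_ : TopologicalSpace X),
      Countable X ∧ FrechetUrysohnSpace X ∧ T2Space X ∧
      (∃ B : Set (Set X), TopologicalSpace.IsTopologicalBasis B ∧ ∀ s ∈ B, IsClopen s) ∧
      (∀ x : X, bounding ≤ piCharacter x) ∧ bounding ≤ piWeight X ∧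
      piWeight X ≤ Cardinal.continuum ∧
      (bounding = Cardinal.continuum → piWeight X = bounding) ∧
      (bounding ≤ pseudoint → piWeight X = bounding) := by
  obtain ⟨f, h1, h2, h3⟩ := Helper94.FrechetB.exists_scale
  let t : TopologicalSpace (List ℕ) := Helper94.FrechetB.seqTop f
  have hχ : ∀ x : List ℕ, bounding ≤ piCharacter x := by
    intro x
    apply le_csInf
    · exact ⟨_, {p | IsOpen p ∧ p.Nonempty}, fun p hp => hp,
        fun U hU hx => ⟨U, ⟨hU, ⟨x, hx⟩⟩, subset_rfl⟩, rfl⟩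
    · rintro κ ⟨P, hP, hP2, rfl⟩
      exact Helper94.FrechetB.pi_char h1 h3 x P hP hP2
  have hπ : bounding ≤ piWeight (List ℕ) := by
    apply le_csInf
    · exact ⟨_, {p | IsOpen p ∧ p.Nonempty}, fun p hp => hp,
        fun U hU hx => ⟨U, ⟨hU, hx⟩, subset_rfl⟩, rfl⟩
    · rintro κ ⟨P, hP, hP2, rfl⟩
      exact Helper94.FrechetB.pi_char h1 h3 [] P hP fun U hU hx => hP2 U hU ⟨_, hx⟩
  have hc : piWeight (List ℕ) ≤ Cardinal.continuum := by
    have h4 : piWeight (List ℕ) ≤ Cardinal.mk {p : Set (List ℕ) | IsOpen p ∧ p.Nonempty} :=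
      csInf_le' ⟨{p | IsOpen p ∧ p.Nonempty}, fun p hp => hp,
        fun U hU hx => ⟨U, ⟨hU, hx⟩, subset_rfl⟩, rfl⟩
    refine h4.trans ((Cardinal.mk_set_le _).trans ?_)
    simp
  have hp : bounding ≤ pseudoint → piWeight (List ℕ) ≤ bounding := by
    intro hbp
    refine le_trans (csInf_le' ⟨Set.range fun p : List ℕ × ℕ × Finset Helper94.FrechetB.I =>
      Helper94.FrechetB.basic f p.1 p.2.1 p.2.2, ?_, ?_, rfl⟩) (Helper94.FrechetB.mk_basics f)
    · rintro _ ⟨⟨s, k, F⟩, rfl⟩
      exact ⟨Helper94.FrechetB.isOpen_basic f s k F, s, Helper94.FrechetB.mem_basic f s k F⟩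
    · rintro U hU ⟨s, hs⟩
      obtain ⟨k, F, hkF⟩ := Helper94.FrechetB.exists_basic h1 h2 h3 hbp hU hs
      exact ⟨_, ⟨(s, k, F), rfl⟩, hkF⟩
  refine ⟨List ℕ, t, inferInstance, Helper94.FrechetB.frechet h1 h2 h3, Helper94.FrechetB.t2 f,
    Helper94.FrechetB.clopen_basis f, hχ, hπ, hc, fun h => le_antisymm (h ▸ hc) hπ,
    fun h => le_antisymm (hp h) hπ⟩

end Pool.Agent.Results.MP_91dc65_gt.PiWeightAtLeastB
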